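import Pool.Agent.Helper69.ST.GoalsR

/-!
# Project ST, part 2 (MP_438009_an), packet ON: the square root trick
-/

set_option autoImplicit false

open MeasureTheory Set Complex Metric Filter
open scoped Topology ComplexConjugate

namespace Pool.Agent.Helper64.ST.ON

open Pool.Agent.Helper69.ST

noncomputable section

/-- The Moebius map of the disk which maps `a` to `0`. -/
def mob (a w : ℂ) : ℂ := (w - a) / (1 - conj a * w)

theorem den_ne {a w : ℂ} (ha : ‖a‖ < 1) (hw : ‖w‖ < 1) : 1 - conj a * w ≠ 0 := by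
  intro h
  have h1 : conj a * w = 1 := (sub_eq_zero.1 h).symm
  have h2 : ‖conj a * w‖ < 1 := by
    rw [norm_mul, RCLike.norm_conj]
    nlinarith [norm_nonneg a, norm_nonneg w]
  rw [h1, norm_one] at h2
  exact lt_irrefl _ h2

theorem mob_norm {a w : ℂ} (ha : ‖a‖ < 1) (hw : ‖w‖ < 1) : ‖mob a w‖ < 1 := by
  have hd := den_ne ha hw
  unfold mob
  rw [norm_div, div_lt_one (norm_pos_iff.2 hd)]
  have key : ‖1 - conj a * w‖ ^ 2 - ‖w - a‖ ^ 2 = (1 - ‖a‖ ^ 2) * (1 - ‖w‖ ^ 2) := by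
    simp only [Complex.sq_norm, Complex.normSq_apply]
    simp
    ring
  have h1 : 0 < (1 - ‖a‖ ^ 2) * (1 - ‖w‖ ^ 2) := by
    apply mul_pos
    · nlinarith [norm_nonneg a]
    · nlinarith [norm_nonneg w]
  have h2 : ‖w - a‖ ^ 2 < ‖1 - conj a * w‖ ^ 2 := by linarith
  exact lt_of_pow_lt_pow_left₀ 2 (norm_nonneg _) h2

theorem conj_mul_ne {a : ℂ} (ha : ‖a‖ < 1) : 1 - conj a * a ≠ 0 := den_ne ha ha

theorem mob_inj {a w w' : ℂ} (ha : ‖a‖ < 1) (hw : ‖w‖ < 1) (hw' : ‖w'‖ < 1)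
    (h : mob a w = mob a w') : w = w' := by
  have hd := den_ne ha hw
  have hd' := den_ne ha hw'
  unfold mob at h
  rw [div_eq_div_iff hd hd'] at h
  have h1 : (1 - conj a * a) * (w - w') = 0 := by linear_combination h
  rcases mul_eq_zero.1 h1 with h2 | h2
  · exact absurd h2 (conj_mul_ne ha)
  · exact sub_eq_zero.1 h2

theorem mob_deriv {a w : ℂ} (ha : ‖a‖ < 1) (hw : ‖w‖ < 1) :
    HasDerivAt (mob a) ((1 - conj a * a) / (1 - conj a * w) ^ 2) w := by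
  have h1 : HasDerivAt (fun w : ℂ => w - a) 1 w := (hasDerivAt_id w).sub_const a
  have h2 : HasDerivAt (fun w : ℂ => 1 - conj a * w) (-(conj a * 1)) w :=
    ((hasDerivAt_id w).const_mul (conj a)).const_sub 1
  have h3 := h1.div h2 (den_ne ha hw)
  have h4 : (1 * (1 - conj a * w) - (w - a) * -(conj a * 1)) / (1 - conj a * w) ^ 2 =
      (1 - conj a * a) / (1 - conj a * w) ^ 2 := by
    congr 1
    ring
  rw [h4] at h3
  exact h3

theorem norm_one_sub {a : ℂ} (ha : ‖a‖ < 1) : ‖1 - conj a * a‖ = 1 - ‖a‖ ^ 2 := by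
  rw [Complex.conj_mul']
  have h1 : (1 : ℂ) - (‖a‖ : ℂ) ^ 2 = ((1 - ‖a‖ ^ 2 : ℝ) : ℂ) := by push_cast; ring
  rw [h1, Complex.norm_real, Real.norm_eq_abs, abs_of_nonneg]
  nlinarith [norm_nonneg a]

theorem t : Pool.Agent.Helper69.ST.S_ON := by
  intro U z₀ a f hU hz₀ hsq hf hf' ha haf
  have hfn : ∀ z ∈ U, ‖f z‖ < 1 := fun z hz => by
    have := hf.maps hz
    rwa [mem_ball_zero_iff] at this
  -- the first Moebius map
  set ψ : ℂ → ℂ := fun z => mob a (f z) with hψ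
  have hψd : ∀ z ∈ U, HasDerivAt ψ ((1 - conj a * a) / (1 - conj a * f z) ^ 2 * deriv f z) z := by
    intro z hz
    have h1 : HasDerivAt f (deriv f z) z :=
      ((hf.diff z hz).differentiableAt (hU.mem_nhds hz)).hasDerivAt
    exact (mob_deriv ha (hfn z hz)).comp z h1
  have hψ0 : ∀ z ∈ U, ψ z ≠ 0 := by
    intro z hz h
    have h1 : (f z - a) / (1 - conj a * f z) = 0 := h
    rcases div_eq_zero_iff.1 h1 with h2 | h2
    · exact haf ⟨z, hz, sub_eq_zero.1 h2⟩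
    · exact den_ne ha (hfn z hz) h2
  obtain ⟨s, hsd, hs⟩ := hsq ψ (fun z hz => (hψd z hz).differentiableAt.differentiableWithinAt) hψ0
  have hsn : ∀ z ∈ U, ‖s z‖ < 1 := by
    intro z hz
    have h1 : ‖s z‖ ^ 2 < 1 := by
      rw [← norm_pow, hs z hz]
      exact mob_norm ha (hfn z hz)
    nlinarith [norm_nonneg (s z)]
  set b := s z₀ with hb
  have hbn : ‖b‖ < 1 := hsn z₀ hz₀
  have hb2 : b ^ 2 = -a := by
    rw [hb, hs z₀ hz₀]
    show (f z₀ - a) / (1 - conj a * f z₀) = -a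
    rw [hf.zero]
    simp
  have hb0 : b ≠ 0 := by
    intro h
    apply hψ0 z₀ hz₀
    rw [← hs z₀ hz₀, ← hb, h]
    simp
  have hbpos : 0 < ‖b‖ := norm_pos_iff.2 hb0
  have hab : ‖a‖ = ‖b‖ ^ 2 := by
    rw [← norm_pow, hb2, norm_neg]
  -- the derivative of `s`
  have hsd0 : HasDerivAt s (deriv s z₀) z₀ :=
    ((hsd z₀ hz₀).differentiableAt (hU.mem_nhds hz₀)).hasDerivAt
  have hs2 : HasDerivAt (fun z => s z ^ 2) (2 * b * deriv s z₀) z₀ := by
    have h1 := hsd0.pow 2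
    have h2 : ((2 : ℕ) : ℂ) * s z₀ ^ (2 - 1) * deriv s z₀ = 2 * b * deriv s z₀ := by
      rw [hb]; norm_num
    rw [h2] at h1
    exact h1
  have hs3 : HasDerivAt ψ (2 * b * deriv s z₀) z₀ := by
    refine hs2.congr_of_eventuallyEq ?_
    filter_upwards [hU.mem_nhds hz₀] with z hz
    exact (hs z hz).symm
  have hder : 2 * b * deriv s z₀ = (1 - conj a * a) * deriv f z₀ := by
    have h1 := hs3.unique (hψd z₀ hz₀)
    rw [h1, hf.zero]
    simp
  -- the function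
  have hh : HasDerivAt (fun z => mob b (s z))
      ((1 - conj b * b) / (1 - conj b * s z₀) ^ 2 * deriv s z₀) z₀ :=
    (mob_deriv hbn (hsn z₀ hz₀)).comp z₀ hsd0
  refine ⟨fun z => mob b (s z), ⟨?_, ?_, ?_, ?_⟩, ?_⟩
  · intro z hz
    have h1 := (hsd z hz).differentiableAt (hU.mem_nhds hz)
    exact ((mob_deriv hbn (hsn z hz)).differentiableAt.comp z h1).differentiableWithinAt
  · intro z hz z' hz' h
    have h1 : s z = s z' := mob_inj hbn (hsn z hz) (hsn z' hz') h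
    have h2 : ψ z = ψ z' := by rw [← hs z hz, ← hs z' hz', h1]
    exact hf.inj hz hz' (mob_inj ha (hfn z hz) (hfn z' hz') h2)
  · intro z hz
    rw [mem_ball_zero_iff]
    exact mob_norm hbn (hsn z hz)
  · show (s z₀ - b) / (1 - conj b * s z₀) = 0
    rw [← hb, sub_self, zero_div]
  · rw [hh.deriv, ← hb, norm_mul, norm_div, norm_pow, norm_one_sub hbn]
    have h1 : 2 * ‖b‖ * ‖deriv s z₀‖ = (1 - ‖a‖ ^ 2) * ‖deriv f z₀‖ := by
      have h2 := congrArg norm hder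
      rw [norm_mul, norm_mul, norm_mul, norm_one_sub ha] at h2
      simpa using h2
    have h3 : 0 < 1 - ‖b‖ ^ 2 := by nlinarith [norm_nonneg b]
    have h4 : (1 - ‖b‖ ^ 2) / (1 - ‖b‖ ^ 2) ^ 2 * ‖deriv s z₀‖ =
        ‖deriv s z₀‖ / (1 - ‖b‖ ^ 2) := by
      field_simp
    rw [h4, lt_div_iff₀ h3]
    have hf0 : 0 < ‖deriv f z₀‖ := norm_pos_iff.2 hf'
    rw [hab] at h1
    -- `2 |b| |s'| = (1 - |b|^4) |f'|`
    have h5 : 2 * ‖b‖ * (‖deriv f z₀‖ * (1 - ‖b‖ ^ 2)) < 2 * ‖b‖ * ‖deriv s z₀‖ := by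
      rw [h1]
      have h6 : (1 - (‖b‖ ^ 2) ^ 2) * ‖deriv f z₀‖ -
          2 * ‖b‖ * (‖deriv f z₀‖ * (1 - ‖b‖ ^ 2)) =
          ‖deriv f z₀‖ * (1 - ‖b‖ ^ 2) * (1 - ‖b‖) ^ 2 := by ring
      have h7 : 0 < ‖deriv f z₀‖ * (1 - ‖b‖ ^ 2) * (1 - ‖b‖) ^ 2 := by
        have : 0 < 1 - ‖b‖ := by linarith
        positivity
      linarith
    exact lt_of_mul_lt_mul_left h5 (by positivity)

end

end Pool.Agent.Helper64.ST.ON
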